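import Mathlib
import Pool.Agent.H72.Cardy.Conf

set_option autoImplicit false
open Filter Topology

/-! The conformal map of the upper half-plane onto the strip of width 1 with a vertical slit. -/

namespace Pool.Agent.H9.CarConf

open Pool.Agent.H72.CardyC (HP)
open Pool.Agent.H72.CardyC.Conf (log_cont mono_HP isOpen_HP convex_HP convex_re)

/-- the strip `0 < re z < 1` without the slit `re z = s, im z ≤ 0` -/
def SDom (s : ℝ) : Set ℂ := {z | 0 < z.re ∧ z.re < 1 ∧ (z.re = s → 0 < z.im)}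

namespace Slit

open Complex

/-- the constant which puts the tip of the slit at height `0` -/
noncomputable def cc (s : ℝ) : ℝ := s * Real.log s + (1 - s) * Real.log (1 - s)

/-- the Schwarz-Christoffel map -/
noncomputable def gg (s : ℝ) (w : ℂ) : ℂ :=
  1 + (I / Real.pi) * ((s : ℂ) * log w + (1 - (s : ℂ)) * log (w - 1) - (cc s : ℂ))

theorem gg_eq (s : ℝ) (w : ℂ) : gg s w =
    ((1 - (s * w.arg + (1 - s) * (w - 1).arg) / Real.pi : ℝ) : ℂ) +
      (((s * Real.log ‖w‖ + (1 - s) * Real.log ‖w - 1‖ - cc s) / Real.pi : ℝ) : ℂ) * I := by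
  have hpi : (Real.pi : ℂ) ≠ 0 := by exact_mod_cast Real.pi_ne_zero
  rw [gg, Complex.log, Complex.log]
  push_cast
  field_simp
  ring_nf
  rw [I_sq]
  ring

theorem gg_re (s : ℝ) (w : ℂ) :
    (gg s w).re = 1 - (s * w.arg + (1 - s) * (w - 1).arg) / Real.pi := by
  rw [gg_eq, add_re, re_ofReal_mul, ofReal_re]; simp

theorem gg_im (s : ℝ) (w : ℂ) :
    (gg s w).im = (s * Real.log ‖w‖ + (1 - s) * Real.log ‖w - 1‖ - cc s) / Real.pi := by
  rw [gg_eq, add_im, im_ofReal_mul, ofReal_im]; simp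

theorem ne_zero_of_HP {w : ℂ} (hw : 0 < w.im) : w ≠ 0 := fun h => by rw [h] at hw; simp at hw

theorem sub_one_HP {w : ℂ} (hw : 0 < w.im) : 0 < (w - 1).im := by simpa using hw

theorem arg_HP {w : ℂ} (hw : 0 < w.im) : 0 < w.arg ∧ w.arg < Real.pi :=
  ⟨lt_of_le_of_ne (arg_nonneg_iff.2 hw.le) (fun h' => by
      rw [eq_comm, arg_eq_zero_iff] at h'; exact hw.ne' h'.2),
    lt_of_le_of_ne (arg_le_pi _) (fun h' => by rw [arg_eq_pi_iff] at h'; exact hw.ne' h'.2)⟩

theorem gg_cont (s : ℝ) {w : ℂ} (h0 : w ≠ 0) (h1 : w ≠ 1) :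
    ContinuousWithinAt (gg s) {z : ℂ | 0 ≤ z.im} w := by
  have hm : Tendsto (fun w : ℂ => w - 1) (𝓝[{z : ℂ | 0 ≤ z.im}] w)
      (𝓝[{z : ℂ | 0 ≤ z.im}] (w - 1)) := by
    refine tendsto_nhdsWithin_iff.2 ⟨(continuousAt_id.sub continuousAt_const).continuousWithinAt, ?_⟩
    filter_upwards [self_mem_nhdsWithin] with x hx
    show 0 ≤ (x - 1).im
    simpa using hx
  have h2 : ContinuousWithinAt (fun w => log (w - 1)) {z : ℂ | 0 ≤ z.im} w :=
    (log_cont (sub_ne_zero.2 h1)).tendsto.comp hm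
  exact continuousWithinAt_const.add (continuousWithinAt_const.mul
    (((continuousWithinAt_const.mul (log_cont h0)).add (continuousWithinAt_const.mul h2)).sub
      continuousWithinAt_const))

theorem hasDerivAt_gg (s : ℝ) {w : ℂ} (hw : 0 < w.im) :
    HasDerivAt (gg s) ((I / Real.pi) * ((s : ℂ) / w + (1 - (s : ℂ)) / (w - 1))) w := by
  have s1 : w ∈ slitPlane := by rw [mem_slitPlane_iff]; exact Or.inr hw.ne'
  have s2 : w - 1 ∈ slitPlane := by rw [mem_slitPlane_iff]; exact Or.inr (sub_one_HP hw).ne'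
  have h1 := (hasDerivAt_log s1).const_mul (s : ℂ)
  have h2 := (((hasDerivAt_id w).sub_const (1 : ℂ)).clog s2).const_mul (1 - (s : ℂ))
  have h3 := (((h1.add h2).sub_const (cc s : ℂ)).const_mul (I / (Real.pi : ℂ))).const_add (1 : ℂ)
  refine h3.congr_deriv ?_
  simp only [id]
  ring

theorem re_deriv_pos {s : ℝ} (h0 : 0 < s) (h1 : s < 1) {w : ℂ} (hw : 0 < w.im) :
    0 < ((I / Real.pi) * ((s : ℂ) / w + (1 - (s : ℂ)) / (w - 1))).re := by
  have hpi := Real.pi_pos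
  have e : ((I / Real.pi) * ((s : ℂ) / w + (1 - (s : ℂ)) / (w - 1))) =
      ((1 / Real.pi : ℝ) : ℂ) * (((s : ℝ) : ℂ) * (I * w⁻¹) + ((1 - s : ℝ) : ℂ) * (I * (w - 1)⁻¹)) := by
    push_cast; ring
  have e2 : ∀ v : ℂ, (I * v⁻¹).re = v.im / normSq v := by
    intro v; simp [inv_im]; ring
  rw [e, re_ofReal_mul, add_re, re_ofReal_mul, re_ofReal_mul, e2, e2]
  have a1 : 0 < w.im / normSq w := div_pos hw (normSq_pos.2 (ne_zero_of_HP hw))
  have a2 : 0 < (w - 1).im / normSq (w - 1) :=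
    div_pos (sub_one_HP hw) (normSq_pos.2 (ne_zero_of_HP (sub_one_HP hw)))
  have : 0 < 1 - s := by linarith
  positivity

theorem gg_inj {s : ℝ} (h0 : 0 < s) (h1 : s < 1) : Set.InjOn (gg s) HP := by
  intro a ha b hb hab
  by_contra hne
  have hba : b - a ≠ 0 := sub_ne_zero.2 (Ne.symm hne)
  have hin : ∀ t : ℝ, t ∈ Set.Icc (0 : ℝ) 1 → 0 < (a + t * (b - a)).im := by
    intro t ht
    have ha' : 0 < a.im := ha
    have hb' : 0 < b.im := hb
    have : (a + t * (b - a)).im = (1 - t) * a.im + t * b.im := by simp; ring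
    rw [this]
    rcases ht.1.lt_or_eq with h | h
    · have := mul_pos h hb'
      have := mul_nonneg (sub_nonneg.2 ht.2) ha'.le
      linarith
    · rw [← h]; simpa using ha'
  have hd : ∀ t ∈ Set.Icc (0 : ℝ) 1, HasDerivAt (fun t : ℝ => (gg s (a + t * (b - a)) / (b - a)).re)
      (((I / Real.pi) * ((s : ℂ) / (a + t * (b - a)) +
        (1 - (s : ℂ)) / ((a + t * (b - a)) - 1))).re) t := by
    intro t ht
    have h2 := hasDerivAt_gg s (hin t ht)
    have h3 : HasDerivAt (fun t : ℝ => a + (t : ℂ) * (b - a)) (b - a) t := by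
      have := (((Complex.ofRealCLM.hasDerivAt (x := t)).mul_const (b - a))).const_add a
      simpa using this
    have h4 := (h2.comp t h3).div_const (b - a)
    have h5 := (Complex.reCLM.hasFDerivAt).comp_hasDerivAt t h4
    refine h5.congr_deriv ?_
    simp only [reCLM_apply]
    congr 1
    field_simp
  obtain ⟨t, ht, ht2⟩ := exists_hasDerivAt_eq_zero (zero_lt_one' ℝ)
    (fun x hx => (hd x hx).continuousAt.continuousWithinAt)
    (by simp [hab]) (fun x hx => hd x (Set.Ioo_subset_Icc_self hx))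
  exact absurd ht2 (re_deriv_pos h0 h1 (hin t (Set.Ioo_subset_Icc_self ht))).ne'

theorem re_gg {s : ℝ} (h0 : 0 < s) (h1 : s < 1) {w : ℂ} (hw : 0 < w.im) :
    0 < (gg s w).re ∧ (gg s w).re < 1 := by
  obtain ⟨a1, a2⟩ := arg_HP hw
  obtain ⟨b1, b2⟩ := arg_HP (sub_one_HP hw)
  have hpi := Real.pi_pos
  have h2 : 0 < 1 - s := by linarith
  rw [gg_re]
  constructor
  · rw [sub_pos, div_lt_one hpi]
    nlinarith
  · rw [sub_lt_self_iff]
    positivity

/-- the boundary of the slit strip -/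
def BB (s : ℝ) : Set ℂ := {z | z.re = 0 ∨ z.re = 1 ∨ (z.re = s ∧ z.im ≤ 0)}

theorem gibbs {s x : ℝ} (h0 : 0 < s) (h1 : s < 1) (hx : 0 < x) (hx1 : x < 1) :
    s * Real.log x + (1 - s) * Real.log (1 - x) ≤ cc s := by
  have e1 := Real.log_le_sub_one_of_pos (div_pos hx h0)
  have e2 := Real.log_le_sub_one_of_pos (div_pos (sub_pos.2 hx1) (sub_pos.2 h1))
  rw [Real.log_div hx.ne' h0.ne'] at e1
  rw [Real.log_div (sub_pos.2 hx1).ne' (sub_pos.2 h1).ne'] at e2
  have e3 : s * (x / s - 1) = x - s := by field_simp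
  have e4 : (1 - s) * ((1 - x) / (1 - s) - 1) = s - x := by
    have : 1 - s ≠ 0 := (sub_pos.2 h1).ne'
    field_simp; ring
  have e5 := mul_le_mul_of_nonneg_left e1 h0.le
  have e6 := mul_le_mul_of_nonneg_left e2 (sub_pos.2 h1).le
  rw [e3] at e5
  rw [e4] at e6
  rw [cc]
  linarith

theorem gibbs_lt {s x : ℝ} (h0 : 0 < s) (h1 : s < 1) (hx : 0 < x) (hx1 : x < 1) (hne : x ≠ s) :
    s * Real.log x + (1 - s) * Real.log (1 - x) < cc s := by
  have hxs : x / s ≠ 1 := by rw [Ne, div_eq_one_iff_eq h0.ne']; exact hne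
  have e1 := Real.log_lt_sub_one_of_pos (div_pos hx h0) hxs
  have e2 := Real.log_le_sub_one_of_pos (div_pos (sub_pos.2 hx1) (sub_pos.2 h1))
  rw [Real.log_div hx.ne' h0.ne'] at e1
  rw [Real.log_div (sub_pos.2 hx1).ne' (sub_pos.2 h1).ne'] at e2
  have e3 : s * (x / s - 1) = x - s := by field_simp
  have e4 : (1 - s) * ((1 - x) / (1 - s) - 1) = s - x := by
    have : 1 - s ≠ 0 := (sub_pos.2 h1).ne'
    field_simp; ring
  have e5 := mul_lt_mul_of_pos_left e1 h0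
  have e6 := mul_le_mul_of_nonneg_left e2 (sub_pos.2 h1).le
  rw [e3] at e5
  rw [e4] at e6
  rw [cc]
  linarith

theorem gg_neg (s : ℝ) {x : ℝ} (hx : x < 0) : (gg s (x : ℂ)).re = 0 := by
  have e : (x : ℂ) - 1 = ((x - 1 : ℝ) : ℂ) := by push_cast; ring
  have hpi := Real.pi_pos
  rw [gg_re, e, arg_ofReal_of_neg hx, arg_ofReal_of_neg (by linarith)]
  field_simp; ring

theorem gg_gt_one (s : ℝ) {x : ℝ} (hx : 1 < x) : (gg s (x : ℂ)).re = 1 := by
  have e : (x : ℂ) - 1 = ((x - 1 : ℝ) : ℂ) := by push_cast; ring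
  rw [gg_re, e, arg_ofReal_of_nonneg (by linarith), arg_ofReal_of_nonneg (by linarith)]
  simp

theorem gg_mid_re (s : ℝ) {x : ℝ} (hx : 0 < x) (hx1 : x < 1) : (gg s (x : ℂ)).re = s := by
  have e : (x : ℂ) - 1 = ((x - 1 : ℝ) : ℂ) := by push_cast; ring
  have hpi := Real.pi_pos
  rw [gg_re, e, arg_ofReal_of_nonneg hx.le, arg_ofReal_of_neg (by linarith)]
  field_simp; ring

theorem gg_mid_im (s : ℝ) {x : ℝ} (hx : 0 < x) (hx1 : x < 1) :
    (gg s (x : ℂ)).im = (s * Real.log x + (1 - s) * Real.log (1 - x) - cc s) / Real.pi := by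
  have e : (x : ℂ) - 1 = ((x - 1 : ℝ) : ℂ) := by push_cast; ring
  rw [gg_im, e, norm_real, norm_real, Real.norm_eq_abs, Real.norm_eq_abs, abs_of_pos hx,
    abs_of_neg (by linarith)]
  congr 3
  ring_nf

theorem gg_real {s : ℝ} (h0 : 0 < s) (h1 : s < 1) {w : ℂ} (hw : w.im = 0) (hw0 : w ≠ 0)
    (hw1 : w ≠ 1) : gg s w ∈ BB s := by
  have e : w = ((w.re : ℝ) : ℂ) := Complex.ext (by simp) (by simpa using hw)
  set x := w.re with hx
  have hx0 : x ≠ 0 := fun h => hw0 (by rw [e, h]; simp)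
  have hx1 : x ≠ 1 := fun h => hw1 (by rw [e, h]; simp)
  rw [e]
  rcases lt_or_gt_of_ne hx0 with h | h
  · left; exact gg_neg s h
  · rcases lt_or_gt_of_ne hx1 with h2 | h2
    · right; right
      refine ⟨gg_mid_re s h h2, ?_⟩
      rw [gg_mid_im s h h2]
      exact div_nonpos_of_nonpos_of_nonneg (sub_nonpos.2 (gibbs h0 h1 h h2)) Real.pi_pos.le
    · right; left; exact gg_gt_one s h2

/-! ### the two sides of the slit -/

theorem arg_le_div {w : ℂ} (hw : 0 < w.im) (hre : 0 < w.re) : w.arg ≤ w.im / w.re := by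
  have h2 : w.arg < Real.pi / 2 := by
    have h3 := (abs_arg_lt_pi_div_two_iff (z := w)).2 (Or.inl hre)
    exact (abs_lt.1 h3).2
  have h4 := Real.lt_tan (arg_HP hw).1 h2
  rw [tan_arg] at h4
  exact h4.le

theorem le_arg {w : ℂ} (hw : 0 < w.im) : w.im / ‖w‖ ≤ w.arg := by
  rw [← sin_arg]
  exact Real.sin_le (arg_HP hw).1.le

/-- the reflected point `1 - conj w` -/
theorem arg_refl {w : ℂ} (hw : 0 < w.im) :
    ∃ v : ℂ, v.re = 1 - w.re ∧ v.im = w.im ∧ ‖v‖ = ‖w - 1‖ ∧ (w - 1).arg = Real.pi - v.arg := by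
  refine ⟨-(starRingEnd ℂ (w - 1)), by simp, by simp, by rw [norm_neg, norm_conj], ?_⟩
  have h1 : (w - 1).im = w.im := by simp
  have h2 : (w - 1).arg ≠ Real.pi := by
    intro h
    rw [arg_eq_pi_iff] at h
    exact hw.ne' (h1 ▸ h.2)
  have h3 : (starRingEnd ℂ (w - 1)).im < 0 := by rw [conj_im, h1]; linarith
  rw [arg_neg_eq_arg_add_pi_of_im_neg h3, arg_conj, if_neg h2]
  ring

theorem left_side {s : ℝ} (h0 : 0 < s) (h1 : s < 1) {w : ℂ} (hw : 0 < w.im)
    (h : (1 - s) * ‖w‖ < s * (1 - w.re)) : (gg s w).re < s := by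
  obtain ⟨v, v1, v2, v3, v4⟩ := arg_refl hw
  have hn : 0 < ‖w‖ := norm_pos_iff.2 (ne_zero_of_HP hw)
  have hs : 0 < 1 - s := by linarith
  have hre : 0 < 1 - w.re := by
    by_contra hc
    have : s * (1 - w.re) ≤ 0 := mul_nonpos_of_nonneg_of_nonpos h0.le (not_lt.1 hc)
    have := mul_pos hs hn
    linarith
  have hb := arg_le_div (w := v) (by rw [v2]; exact hw) (by rw [v1]; exact hre)
  have ha := le_arg hw
  rw [v1, v2] at hb
  have hmid : (1 - s) * (w.im / (1 - w.re)) < s * (w.im / ‖w‖) := by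
    rw [mul_div_assoc', mul_div_assoc', div_lt_div_iff₀ hre hn]
    nlinarith
  have hpi := Real.pi_pos
  have key : (1 - s) * v.arg < s * w.arg :=
    lt_of_le_of_lt (mul_le_mul_of_nonneg_left hb hs.le)
      (lt_of_lt_of_le hmid (mul_le_mul_of_nonneg_left ha h0.le))
  rw [gg_re, v4, sub_lt_comm, lt_div_iff₀ hpi]
  nlinarith

theorem right_side {s : ℝ} (h0 : 0 < s) (h1 : s < 1) {w : ℂ} (hw : 0 < w.im)
    (h : s * ‖w - 1‖ < (1 - s) * w.re) : s < (gg s w).re := by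
  obtain ⟨v, v1, v2, v3, v4⟩ := arg_refl hw
  have hvim : 0 < v.im := by rw [v2]; exact hw
  have hn : 0 < ‖w - 1‖ := norm_pos_iff.2 (ne_zero_of_HP (sub_one_HP hw))
  have hs : 0 < 1 - s := by linarith
  have hre : 0 < w.re := by
    by_contra hc
    have : (1 - s) * w.re ≤ 0 := mul_nonpos_of_nonneg_of_nonpos hs.le (not_lt.1 hc)
    have := mul_pos h0 hn
    linarith
  have ha := arg_le_div hw hre
  have hb := le_arg hvim
  rw [v2, v3] at hb
  have hmid : s * (w.im / w.re) < (1 - s) * (w.im / ‖w - 1‖) := by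
    rw [mul_div_assoc', mul_div_assoc', div_lt_div_iff₀ hre hn]
    nlinarith
  have hpi := Real.pi_pos
  have key : s * w.arg < (1 - s) * v.arg :=
    lt_of_le_of_lt (mul_le_mul_of_nonneg_left ha h0.le)
      (lt_of_lt_of_le hmid (mul_le_mul_of_nonneg_left hb hs.le))
  rw [gg_re, v4, lt_sub_comm, div_lt_iff₀ hpi]
  nlinarith

theorem sin_smul {s γ : ℝ} (h0 : 0 < s) (h1 : s < 1) (hγ : 0 < γ) (hγ1 : γ ≤ Real.pi) :
    s * Real.sin γ < Real.sin (s * γ) := by
  have h := strictConcaveOn_sin_Icc.2 (x := γ) (y := 0) ⟨hγ.le, hγ1⟩ ⟨le_rfl, Real.pi_pos.le⟩ hγ.ne'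
    h0 (sub_pos.2 h1) (by ring)
  simpa using h

/-- the points of the image on the line of the slit lie above the slit -/
theorem above {s : ℝ} (h0 : 0 < s) (h1 : s < 1) {w : ℂ} (hw : 0 < w.im)
    (h : (gg s w).re = s) : 0 < (gg s w).im := by
  obtain ⟨v, v1, v2, v3, v4⟩ := arg_refl hw
  have hvim : 0 < v.im := by rw [v2]; exact hw
  have hs : 0 < 1 - s := by linarith
  have hpi := Real.pi_pos
  have hn : 0 < ‖w‖ := norm_pos_iff.2 (ne_zero_of_HP hw)
  have hn1 : 0 < ‖w - 1‖ := norm_pos_iff.2 (ne_zero_of_HP (sub_one_HP hw))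
  obtain ⟨a1, a2⟩ := arg_HP hw
  obtain ⟨b1, b2⟩ := arg_HP hvim
  have hsin : Real.sin (w.arg + v.arg) = w.im / (‖w‖ * ‖w - 1‖) := by
    rw [Real.sin_add, sin_arg, sin_arg, cos_arg (ne_zero_of_HP hw), cos_arg (ne_zero_of_HP hvim),
      v1, v2, v3]
    field_simp
    ring
  rw [gg_re, v4] at h
  have h2 : s * w.arg = (1 - s) * v.arg := by
    have h3 : (s * w.arg + (1 - s) * (Real.pi - v.arg)) / Real.pi = 1 - s := by linarith
    rw [div_eq_iff hpi.ne'] at h3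
    linarith
  set γ := w.arg + v.arg with hγ
  have ea : (1 - s) * γ = w.arg := by rw [hγ]; linarith
  have eb : s * γ = v.arg := by rw [hγ]; linarith
  have hγ0 : 0 < γ := by positivity
  have hsp : 0 < Real.sin γ := by rw [hsin]; positivity
  have hγ1 : γ ≤ Real.pi := by
    by_contra hc
    have h4 : Real.sin γ ≤ 0 := by
      have := Real.sin_nonneg_of_nonneg_of_le_pi (x := γ - Real.pi) (by linarith) (by linarith)
      rw [Real.sin_sub_pi] at this
      linarith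
    linarith
  have k1 := sin_smul h0 h1 hγ0 hγ1
  have k2 := sin_smul hs (by linarith : 1 - s < 1) hγ0 hγ1
  rw [eb, sin_arg, v2, v3, hsin] at k1
  rw [ea, sin_arg, hsin] at k2
  have hw1 : s < ‖w‖ := by
    have : s * (w.im / (‖w‖ * ‖w - 1‖)) < w.im / ‖w - 1‖ := k1
    rw [mul_div_assoc', div_lt_div_iff₀ (by positivity) hn1] at this
    have h5 : 0 < w.im * ‖w - 1‖ := by positivity
    by_contra hc
    nlinarith [mul_le_mul_of_nonneg_left (not_lt.1 hc) h5.le]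
  have hw2 : 1 - s < ‖w - 1‖ := by
    have : (1 - s) * (w.im / (‖w‖ * ‖w - 1‖)) < w.im / ‖w‖ := k2
    rw [mul_div_assoc', div_lt_div_iff₀ (by positivity) hn] at this
    have h5 : 0 < w.im * ‖w‖ := by positivity
    by_contra hc
    nlinarith [mul_le_mul_of_nonneg_left (not_lt.1 hc) h5.le]
  rw [gg_im]
  apply div_pos _ hpi
  have l1 := mul_lt_mul_of_pos_left (Real.log_lt_log h0 hw1) h0
  have l2 := mul_lt_mul_of_pos_left (Real.log_lt_log hs hw2) hs
  rw [cc]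
  linarith

/-! ### limits at the ends -/

theorem tendsto_sub_one_HP : Tendsto (fun w : ℂ => ‖w - 1‖) (𝓝[HP] (1 : ℂ)) (𝓝[>] 0) := by
  refine tendsto_nhdsWithin_iff.2 ⟨?_, ?_⟩
  · have : Tendsto (fun w : ℂ => ‖w - 1‖) (𝓝 (1 : ℂ)) (𝓝 ‖(1 : ℂ) - 1‖) :=
      ((continuous_id.sub continuous_const).norm.tendsto 1)
    simp only [sub_self, norm_zero] at this
    exact this.mono_left nhdsWithin_le_nhds
  · filter_upwards [self_mem_nhdsWithin] with w hw
    exact norm_pos_iff.2 (ne_zero_of_HP (sub_one_HP hw))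

theorem tendsto_zero_HP : Tendsto (fun w : ℂ => ‖w‖) (𝓝[HP] (0 : ℂ)) (𝓝[>] 0) := by
  refine tendsto_nhdsWithin_iff.2 ⟨?_, ?_⟩
  · have : Tendsto (fun w : ℂ => ‖w‖) (𝓝 (0 : ℂ)) (𝓝 ‖(0 : ℂ)‖) := continuous_norm.tendsto 0
    simp only [norm_zero] at this
    exact this.mono_left nhdsWithin_le_nhds
  · filter_upwards [self_mem_nhdsWithin] with w hw
    exact norm_pos_iff.2 (ne_zero_of_HP hw)

theorem tendsto_zero {s : ℝ} (h0 : 0 < s) :
    Tendsto (fun w => (gg s w).im) (𝓝[HP] (0 : ℂ)) atBot := by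
  have hla := Real.tendsto_log_nhdsGT_zero.comp tendsto_zero_HP
  have hb : Tendsto (fun w : ℂ => (1 - s) * Real.log ‖w - 1‖ - cc s) (𝓝[HP] (0 : ℂ))
      (𝓝 ((1 - s) * Real.log ‖(0 : ℂ) - 1‖ - cc s)) := by
    have : ContinuousAt (fun w : ℂ => (1 - s) * Real.log ‖w - 1‖ - cc s) 0 := by
      refine (continuousAt_const.mul (ContinuousAt.log ?_ (by simp))).sub continuousAt_const
      exact (continuous_id.sub continuous_const).norm.continuousAt
    exact this.tendsto.mono_left nhdsWithin_le_nhds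
  have h2 := (hla.const_mul_atBot h0).atBot_add hb
  have h3 := h2.atBot_div_const Real.pi_pos
  refine h3.congr (fun w => ?_)
  rw [gg_im]; simp only [Function.comp]; congr 1; ring

theorem tendsto_one {s : ℝ} (h1 : s < 1) :
    Tendsto (fun w => (gg s w).im) (𝓝[HP] (1 : ℂ)) atBot := by
  have hla := Real.tendsto_log_nhdsGT_zero.comp tendsto_sub_one_HP
  have hb : Tendsto (fun w : ℂ => s * Real.log ‖w‖ - cc s) (𝓝[HP] (1 : ℂ))
      (𝓝 (s * Real.log ‖(1 : ℂ)‖ - cc s)) := by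
    have : ContinuousAt (fun w : ℂ => s * Real.log ‖w‖ - cc s) 1 := by
      refine (continuousAt_const.mul (ContinuousAt.log ?_ (by simp))).sub continuousAt_const
      exact continuous_norm.continuousAt
    exact this.tendsto.mono_left nhdsWithin_le_nhds
  have h2 := (hla.const_mul_atBot (sub_pos.2 h1)).atBot_add hb
  have h3 := h2.atBot_div_const Real.pi_pos
  refine h3.congr (fun w => ?_)
  rw [gg_im]; simp only [Function.comp]; congr 1; ring

theorem tendsto_infty {s : ℝ} (h0 : 0 < s) (h1 : s < 1) :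
    Tendsto (fun w => (gg s w).im) (cocompact ℂ ⊓ 𝓟 HP) atTop := by
  have ha : Tendsto (fun w : ℂ => ‖w‖) (cocompact ℂ) atTop := tendsto_norm_cocompact_atTop
  have hb : Tendsto (fun w : ℂ => ‖w - 1‖) (cocompact ℂ) atTop := by
    refine tendsto_atTop_mono (f := fun w : ℂ => ‖w‖ + (-1)) (fun w => ?_)
      (tendsto_atTop_add_const_right _ _ ha)
    have := norm_sub_norm_le w 1
    rw [norm_one] at this
    linarith
  have h2 := ((Real.tendsto_log_atTop.comp ha).const_mul_atTop h0).atTop_add_atTop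
    ((Real.tendsto_log_atTop.comp hb).const_mul_atTop (sub_pos.2 h1))
  have h3 := (tendsto_atTop_add_const_right _ (-cc s) h2).atTop_div_const Real.pi_pos
  refine (h3.mono_left inf_le_left).congr (fun w => ?_)
  rw [gg_im]; simp only [Function.comp]; congr 1

theorem tendsto_tip {s : ℝ} (h0 : 0 < s) (h1 : s < 1) :
    Tendsto (gg s) (𝓝[HP] (s : ℂ)) (𝓝 (s : ℂ)) := by
  have hs0 : (s : ℂ) ≠ 0 := by exact_mod_cast h0.ne'
  have hs1 : (s : ℂ) ≠ 1 := by exact_mod_cast h1.ne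
  have h := (gg_cont s hs0 hs1).tendsto.mono_left (mono_HP _)
  have e : gg s (s : ℂ) = s := by
    apply Complex.ext
    · rw [gg_mid_re s h0 h1, ofReal_re]
    · rw [gg_mid_im s h0 h1, ofReal_im, cc]; simp
  rwa [e] at h

/-! ### the image -/

theorem isOpen_image {s : ℝ} (h0 : 0 < s) (h1 : s < 1) : IsOpen (gg s '' HP) := by
  have hd : DifferentiableOn ℂ (gg s) HP := fun w hw =>
    (hasDerivAt_gg s hw).differentiableAt.differentiableWithinAt
  have ha : AnalyticOnNhd ℂ (gg s) HP := hd.analyticOnNhd isOpen_HP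
  rcases ha.is_constant_or_isOpen convex_HP.isPreconnected with h | h
  · exfalso
    obtain ⟨c, hc⟩ := h
    have i1 : I ∈ HP := by show 0 < I.im; simp
    have i2 : 2 * I ∈ HP := by show 0 < (2 * I).im; simp
    have := gg_inj h0 h1 i1 i2 (by rw [hc _ i1, hc _ i2])
    have h3 := congrArg Complex.im this
    simp at h3
  · exact h HP subset_rfl isOpen_HP

/-- limit points of the image which are not in the image lie in `BB s` -/
theorem closure_image {s : ℝ} (h0 : 0 < s) (h1 : s < 1) {z : ℂ} (hz : z ∈ closure (gg s '' HP)) :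
    z ∈ gg s '' HP ∨ z ∈ BB s := by
  obtain ⟨x, hx, hxz⟩ := mem_closure_iff_seq_limit.1 hz
  choose y hy hyx using hx
  by_cases hb : ∃ R : ℝ, ∃ᶠ n in atTop, y n ∈ Metric.closedBall (0 : ℂ) R
  · obtain ⟨R, hR⟩ := hb
    obtain ⟨w, -, φ, hφ, hw⟩ := (isCompact_closedBall (0 : ℂ) R).tendsto_subseq' hR
    have hyx' : Tendsto (fun n => gg s (y (φ n))) atTop (𝓝 z) := by
      refine (hxz.comp hφ.tendsto_atTop).congr (fun n => ?_)
      simp [hyx]
    have hwim : 0 ≤ w.im := by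
      have h2 : Tendsto (fun n => (y (φ n)).im) atTop (𝓝 w.im) :=
        (continuous_im.tendsto w).comp hw
      exact ge_of_tendsto' h2 (fun n => le_of_lt (hy (φ n)))
    have hwH : Tendsto (fun n => y (φ n)) atTop (𝓝[HP] w) :=
      tendsto_nhdsWithin_iff.2 ⟨hw, Eventually.of_forall (fun n => hy (φ n))⟩
    have h4 : Tendsto (fun n => (gg s (y (φ n))).im) atTop (𝓝 z.im) :=
      (continuous_im.tendsto z).comp hyx'
    by_cases e1 : w = 1
    · exfalso
      rw [e1] at hwH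
      exact not_tendsto_nhds_of_tendsto_atBot ((tendsto_one h1).comp hwH) _ h4
    by_cases e0 : w = 0
    · exfalso
      rw [e0] at hwH
      exact not_tendsto_nhds_of_tendsto_atBot ((tendsto_zero h0).comp hwH) _ h4
    have h5 := ((gg_cont s e0 e1).tendsto.mono_left (mono_HP _)).comp hwH
    have h6 := tendsto_nhds_unique h5 hyx'
    rcases hwim.lt_or_eq with h7 | h7
    · left; exact ⟨w, h7, h6⟩
    · right; rw [← h6]; exact gg_real h0 h1 h7.symm e0 e1
  · exfalso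
    have h2 : Tendsto y atTop (cocompact ℂ ⊓ 𝓟 HP) := by
      rw [tendsto_inf, tendsto_principal]
      refine ⟨?_, Eventually.of_forall hy⟩
      rw [← Metric.cobounded_eq_cocompact,
        (Metric.hasBasis_cobounded_compl_closedBall (0 : ℂ)).tendsto_right_iff]
      intro R _
      exact not_frequently.1 (fun h => hb ⟨R, h⟩)
    have h3 := (tendsto_infty h0 h1).comp h2
    have h4 : Tendsto (fun n => (gg s (y n)).im) atTop (𝓝 z.im) := by
      refine ((continuous_im.tendsto z).comp hxz).congr (fun n => ?_)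
      simp [hyx]
    exact not_tendsto_nhds_of_tendsto_atTop h3 _ h4

theorem SDom_eq (s : ℝ) : SDom s =
    ({z : ℂ | 0 < z.re} ∩ {z : ℂ | z.re < 1} ∩ {z : ℂ | 0 < z.im}) ∪
      ((({z : ℂ | 0 < z.re} ∩ {z : ℂ | z.re < 1}) ∩ {z : ℂ | z.re < s}) ∪
       (({z : ℂ | 0 < z.re} ∩ {z : ℂ | z.re < 1}) ∩ {z : ℂ | s < z.re})) := by
  ext z
  simp only [SDom, Set.mem_ofPred_eq, Set.mem_union, Set.mem_inter_iff]
  constructor
  · rintro ⟨a, b, c⟩
    rcases lt_trichotomy z.re s with h | h | h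
    · exact Or.inr (Or.inl ⟨⟨a, b⟩, h⟩)
    · exact Or.inl ⟨⟨a, b⟩, c h⟩
    · exact Or.inr (Or.inr ⟨⟨a, b⟩, h⟩)
  · rintro (⟨⟨a, b⟩, c⟩ | ⟨⟨a, b⟩, c⟩ | ⟨⟨a, b⟩, c⟩)
    · exact ⟨a, b, fun _ => c⟩
    · exact ⟨a, b, fun h => absurd h c.ne⟩
    · exact ⟨a, b, fun h => absurd h c.ne'⟩

theorem preconn_SDom {s : ℝ} (h0 : 0 < s) (h1 : s < 1) : IsPreconnected (SDom s) := by
  rw [SDom_eq]
  have c1 : Convex ℝ {z : ℂ | 0 < z.re} := convex_re 0
  have c2 : ∀ a : ℝ, Convex ℝ {z : ℂ | z.re < a} := fun a =>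
    (convex_Iio a).affine_preimage Complex.reLm.toAffineMap
  have c3 : Convex ℝ {z : ℂ | 0 < z.im} :=
    (convex_Ioi 0).affine_preimage Complex.imLm.toAffineMap
  have cA := (c1.inter (c2 1)).inter c3
  have cB := (c1.inter (c2 1)).inter (c2 s)
  have cC := (c1.inter (c2 1)).inter (convex_re s)
  have hAB : IsPreconnected (({z : ℂ | 0 < z.re} ∩ {z : ℂ | z.re < 1} ∩ {z : ℂ | 0 < z.im}) ∪
      (({z : ℂ | 0 < z.re} ∩ {z : ℂ | z.re < 1}) ∩ {z : ℂ | z.re < s})) := by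
    refine IsPreconnected.union ((s / 2 : ℝ) + I : ℂ) ?_ ?_ cA.isPreconnected cB.isPreconnected
    · simp only [Set.mem_inter_iff, Set.mem_ofPred_eq]
      simp; constructor <;> linarith
    · simp only [Set.mem_inter_iff, Set.mem_ofPred_eq]
      simp; refine ⟨⟨?_, ?_⟩, ?_⟩ <;> linarith
  rw [← Set.union_assoc]
  refine IsPreconnected.union (((s + 1) / 2 : ℝ) + I : ℂ) (Or.inl ?_) ?_ hAB cC.isPreconnected
  · simp only [Set.mem_inter_iff, Set.mem_ofPred_eq]
    simp; constructor <;> linarith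
  · simp only [Set.mem_inter_iff, Set.mem_ofPred_eq]
    simp; refine ⟨⟨?_, ?_⟩, ?_⟩ <;> linarith

theorem disj_SDom {s : ℝ} {z : ℂ} (hz : z ∈ SDom s) : z ∉ BB s := by
  obtain ⟨a, b, c⟩ := hz
  rintro (h | h | ⟨h, h2⟩)
  · linarith
  · linarith
  · have := c h; linarith

theorem image_eq {s : ℝ} (h0 : 0 < s) (h1 : s < 1) : gg s '' HP = SDom s := by
  have hopen := isOpen_image h0 h1
  have hsub : gg s '' HP ⊆ SDom s := by
    rintro z ⟨w, hw, rfl⟩
    exact ⟨(re_gg h0 h1 hw).1, (re_gg h0 h1 hw).2, above h0 h1 hw⟩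
  apply Set.Subset.antisymm hsub
  have i1 : I ∈ HP := by show 0 < I.im; simp
  apply (preconn_SDom h0 h1).subset_of_closure_inter_subset hopen
    ⟨gg s I, hsub ⟨I, i1, rfl⟩, ⟨I, i1, rfl⟩⟩
  rintro y ⟨hy1, hy2⟩
  rcases closure_image h0 h1 hy1 with h | h
  · exact h
  · exact absurd h (disj_SDom hy2)

theorem tendsto_real (s : ℝ) {x : ℝ} (h0 : x ≠ 0) (h1 : x ≠ 1) {a : ℝ} (ha : (gg s (x : ℂ)).re = a) :
    Tendsto (gg s) (𝓝[HP] (x : ℂ)) (𝓝 ((a : ℂ) + ((gg s (x : ℂ)).im : ℂ) * I)) := by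
  have h := (gg_cont s (w := (x : ℂ)) (by exact_mod_cast h0) (by exact_mod_cast h1)).tendsto.mono_left
    (mono_HP _)
  rw [← ha, re_add_im]
  exact h

theorem ev_left {s : ℝ} (h0 : 0 < s) (h1 : s < 1) {x : ℝ} (hx : 0 ≤ x) (hxs : x < s) :
    ∀ᶠ w in 𝓝[HP] (x : ℂ), (gg s w).re < s := by
  have hc : ContinuousAt (fun w : ℂ => s * (1 - w.re) - (1 - s) * ‖w‖) (x : ℂ) := by fun_prop
  have hp : 0 < s * (1 - (x : ℂ).re) - (1 - s) * ‖(x : ℂ)‖ := by
    rw [ofReal_re, norm_real, Real.norm_eq_abs, abs_of_nonneg hx]; linarith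
  filter_upwards [self_mem_nhdsWithin, nhdsWithin_le_nhds (hc.eventually_const_lt hp)] with w hw h
  exact left_side h0 h1 hw (by linarith)

theorem ev_right {s : ℝ} (h0 : 0 < s) (h1 : s < 1) {x : ℝ} (hx : s < x) (hx1 : x ≤ 1) :
    ∀ᶠ w in 𝓝[HP] (x : ℂ), s < (gg s w).re := by
  have hc : ContinuousAt (fun w : ℂ => (1 - s) * w.re - s * ‖w - 1‖) (x : ℂ) := by fun_prop
  have e : (x : ℂ) - 1 = ((x - 1 : ℝ) : ℂ) := by push_cast; ring
  have hp : 0 < (1 - s) * (x : ℂ).re - s * ‖(x : ℂ) - 1‖ := by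
    rw [e, ofReal_re, norm_real, Real.norm_eq_abs, abs_of_nonpos (by linarith)]; linarith
  filter_upwards [self_mem_nhdsWithin, nhdsWithin_le_nhds (hc.eventually_const_lt hp)] with w hw h
  exact right_side h0 h1 hw (by linarith)

end Slit

open Slit Complex in
/-- The upper half-plane is mapped conformally onto the slit strip: the negative real axis goes to the
left wall, `(0, s)` to the left side of the slit, `(s, 1)` to the right side of the slit and
`(1, ∞)` to the right wall; `0` and `1` go to the left and right bottom ends, `∞` to the top end and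
`s` to the tip of the slit. In particular the cross ratio of the crossing from the left side of
the slit to the right wall is `s`. -/
theorem exists_conf_slit (s : ℝ) (h0 : 0 < s) (h1 : s < 1) :
    ∃ f : ℂ → ℂ, DifferentiableOn ℂ f HP ∧ Set.BijOn f HP (SDom s) ∧
      Tendsto (fun w => (f w).im) (cocompact ℂ ⊓ 𝓟 HP) atTop ∧
      Tendsto f (𝓝[HP] (s : ℂ)) (𝓝 (s : ℂ)) ∧
      (Tendsto (fun w => (f w).im) (𝓝[HP] (0 : ℂ)) atBot ∧ ∀ᶠ w in 𝓝[HP] (0 : ℂ), (f w).re < s) ∧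
      (Tendsto (fun w => (f w).im) (𝓝[HP] (1 : ℂ)) atBot ∧ ∀ᶠ w in 𝓝[HP] (1 : ℂ), s < (f w).re) ∧
      (∀ x : ℝ, 0 < x → x < s → (∃ y : ℝ, y < 0 ∧ Tendsto f (𝓝[HP] (x : ℂ)) (𝓝 ((s : ℂ) + y * I))) ∧
        ∀ᶠ w in 𝓝[HP] (x : ℂ), (f w).re < s) ∧
      (∀ x : ℝ, s < x → x < 1 → (∃ y : ℝ, y < 0 ∧ Tendsto f (𝓝[HP] (x : ℂ)) (𝓝 ((s : ℂ) + y * I))) ∧
        ∀ᶠ w in 𝓝[HP] (x : ℂ), s < (f w).re) ∧
      (∀ x : ℝ, x < 0 → ∃ y : ℝ, Tendsto f (𝓝[HP] (x : ℂ)) (𝓝 (y * I))) ∧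
      (∀ x : ℝ, 1 < x → ∃ y : ℝ, Tendsto f (𝓝[HP] (x : ℂ)) (𝓝 (1 + y * I))) := by
  refine ⟨gg s, fun w hw => (hasDerivAt_gg s hw).differentiableAt.differentiableWithinAt,
    ⟨?_, gg_inj h0 h1, ?_⟩, tendsto_infty h0 h1, tendsto_tip h0 h1,
    ⟨tendsto_zero h0, ?_⟩, ⟨tendsto_one h1, ?_⟩, ?_, ?_, ?_, ?_⟩
  · rw [← image_eq h0 h1]; exact Set.mapsTo_image _ _
  · rw [← image_eq h0 h1]; exact Set.surjOn_image _ _
  · have := ev_left h0 h1 le_rfl h0
    rwa [ofReal_zero] at this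
  · have := ev_right h0 h1 h1 le_rfl
    rwa [ofReal_one] at this
  · intro x hx hxs
    refine ⟨⟨_, ?_, tendsto_real s hx.ne' (by linarith) (gg_mid_re s hx (hxs.trans h1))⟩,
      ev_left h0 h1 hx.le hxs⟩
    rw [gg_mid_im s hx (hxs.trans h1)]
    exact div_neg_of_neg_of_pos (sub_neg.2 (gibbs_lt h0 h1 hx (hxs.trans h1) hxs.ne)) Real.pi_pos
  · intro x hxs hx1
    have hx := h0.trans hxs
    refine ⟨⟨_, ?_, tendsto_real s hx.ne' hx1.ne (gg_mid_re s hx hx1)⟩, ev_right h0 h1 hxs hx1.le⟩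
    rw [gg_mid_im s hx hx1]
    exact div_neg_of_neg_of_pos (sub_neg.2 (gibbs_lt h0 h1 hx hx1 hxs.ne')) Real.pi_pos
  · intro x hx
    refine ⟨(gg s (x : ℂ)).im, ?_⟩
    have := tendsto_real s hx.ne (by linarith) (gg_neg s hx)
    simpa using this
  · intro x hx
    refine ⟨(gg s (x : ℂ)).im, ?_⟩
    have := tendsto_real s (by linarith : x ≠ 0) hx.ne' (gg_gt_one s hx)
    simpa using this

end Pool.Agent.H9.CarConf
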